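import Pool.Agent.Helper74.HG.GoalsG

/-!
# Project HG, packet PSR: the Poincare series of `f + w l`
-/

set_option autoImplicit false

namespace Pool.Agent.Helper57.HG.PSR

open Pool.Agent.Helper74.HG

theorem coeff_poin {σ : Type} [Fintype σ] (f : MvPolynomial σ ℤ) (p m : ℕ) :
    PowerSeries.coeff m (poin f p) = (sol f p m : ℂ) / (p : ℂ) ^ (Fintype.card σ * m) := by
  rw [poin, PowerSeries.coeff_mk]

/-- The coefficients of the series of `stab1 f`. -/
theorem coeff_stab (h : PCN) {σ : Type} [Fintype σ] (f : MvPolynomial σ ℤ) (p : ℕ)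
    [hp : Fact p.Prime] (m : ℕ) :
    PowerSeries.coeff m (poin (stab1 f) p) = ((p : ℂ)⁻¹) ^ m *
      (PowerSeries.coeff m (poin f p) + (1 - (p : ℂ)⁻¹) *
        ∑ k ∈ Finset.range m, PowerSeries.coeff k (poin f p)) := by
  have hp0 : (p : ℂ) ≠ 0 := Nat.cast_ne_zero.2 hp.out.ne_zero
  rw [coeff_poin]
  have h1 := congrArg (fun z : ℤ => (z : ℂ)) (h f p m)
  push_cast at h1
  rw [h1, Fintype.card_option, Fintype.card_option, add_div, Finset.sum_div, mul_add]
  congr 1
  · rw [coeff_poin]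
    have e : (p : ℂ) ^ ((Fintype.card σ + 1 + 1) * m) =
        (p : ℂ) ^ m * ((p : ℂ) ^ m * (p : ℂ) ^ (Fintype.card σ * m)) := by
      rw [← pow_add, ← pow_add]
      congr 1
      ring
    rw [e, inv_pow]
    field_simp
  · rw [Finset.mul_sum, Finset.mul_sum]
    refine Finset.sum_congr rfl fun k hk => ?_
    rw [coeff_poin]
    have hkm : k < m := Finset.mem_range.1 hk
    obtain ⟨j, rfl⟩ : ∃ j, m = k + (j + 1) := ⟨m - k - 1, by omega⟩
    have e1 : k + (j + 1) - k = j + 1 := by omega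
    have e2 : k + (j + 1) - 1 = k + j := by omega
    rw [e1, e2]
    have e : (p : ℂ) ^ ((Fintype.card σ + 1 + 1) * (k + (j + 1))) =
        (p : ℂ) ^ (k + (j + 1)) * ((p : ℂ) ^ (k + (j + 1)) *
          ((p : ℂ) ^ (Fintype.card σ * (j + 1)) * (p : ℂ) ^ (Fintype.card σ * k))) := by
      rw [← pow_add, ← pow_add, ← pow_add]
      congr 1
      ring
    have e3 : (p : ℂ) ^ (k + (j + 1)) - (p : ℂ) ^ (k + j) =
        (p : ℂ) ^ (k + (j + 1)) * (1 - (p : ℂ)⁻¹) := by
      rw [mul_sub, mul_one, ← add_assoc, pow_succ, mul_assoc, mul_inv_cancel₀ hp0, mul_one]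
    rw [e, e3, inv_pow]
    have a1 : (p : ℂ) ^ (k + (j + 1)) ≠ 0 := pow_ne_zero _ hp0
    have a2 : (p : ℂ) ^ (Fintype.card σ * (j + 1)) ≠ 0 := pow_ne_zero _ hp0
    have a3 : (p : ℂ) ^ (Fintype.card σ * k) ≠ 0 := pow_ne_zero _ hp0
    generalize (p : ℂ) ^ (k + (j + 1)) = A at *
    generalize (p : ℂ) ^ (Fintype.card σ * (j + 1)) = B at *
    generalize (p : ℂ) ^ (Fintype.card σ * k) = D at *
    generalize (sol f p k : ℂ) = S at *
    generalize (1 - (p : ℂ)⁻¹) = U at *
    field_simp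

theorem t (h : PCN) : PSR := by
  intro σ _ f p hp
  ext m
  rcases m with _ | m
  · rw [sub_mul, sub_mul, one_mul, one_mul, map_sub, map_sub, mul_assoc, mul_assoc,
      PowerSeries.coeff_C_mul, PowerSeries.coeff_C_mul, PowerSeries.coeff_zero_X_mul,
      PowerSeries.coeff_zero_X_mul, PowerSeries.coeff_rescale, coeff_stab h]
    simp
  · rw [sub_mul, sub_mul, one_mul, one_mul, map_sub, map_sub, mul_assoc, mul_assoc,
      PowerSeries.coeff_C_mul, PowerSeries.coeff_C_mul, PowerSeries.coeff_succ_X_mul,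
      PowerSeries.coeff_succ_X_mul, PowerSeries.coeff_rescale, PowerSeries.coeff_rescale,
      coeff_stab h, coeff_stab h, Finset.sum_range_succ]
    ring

end Pool.Agent.Helper57.HG.PSR
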